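import Pool.Agent.P.MP_7e54d7_co.Final

/-!
# Small saturated distinct-distance sets: `s(n) = O(n^{2/3} (log n)^{25/3})`
-/

namespace Pool.Agent.Results.MP_7e54d7_co.UpperTwoThirds

open Pool.Agent.P.MP_7e54d7_co

theorem result : ∃ C : ℝ, ∃ n₀ : ℕ, ∀ n ≥ n₀,
    (satNum n : ℝ) ≤ C * (n : ℝ) ^ (2 / 3 : ℝ) * Real.log n ^ (25 / 3 : ℝ) :=
  satNum_le

end Pool.Agent.Results.MP_7e54d7_co.UpperTwoThirds
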